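import Mathlib

set_option autoImplicit false

noncomputable section

namespace Pool.K4H49.PL

/-- power series in two variables (the plane) -/
abbrev A := MvPowerSeries (Fin 2) ℚ
/-- power series in one variable (the line) -/
abbrev B := PowerSeries ℚ

/-- constant term on the plane -/
def cA : A →+* ℚ := MvPowerSeries.constantCoeff
/-- constant term on the line -/
def cB : B →+* ℚ := PowerSeries.constantCoeff

/-- functions on the plane and the line that agree at the common point -/
def RS : Subring (A × B) :=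
  RingHom.eqLocus (cA.comp (RingHom.fst A B)) (cB.comp (RingHom.snd A B))

/-- the ring `ℚ[[x,y,z]]/(xz,yz)` -/
abbrev R : Type := ↥RS

theorem mem_RS (p : A × B) : p ∈ RS ↔ cA p.1 = cB p.2 := Iff.rfl

/-- value at the closed point -/
def ev : R →+* ℚ := cA.comp ((RingHom.fst A B).comp RS.subtype)

theorem ev_apply (p : R) : ev p = cA p.1.1 := rfl
theorem ev_apply' (p : R) : ev p = cB p.1.2 := p.2

theorem order_pos_A (f : A) : (1 : ℕ∞) ≤ f.order ↔ cA f = 0 :=
  MvPowerSeries.one_le_order_iff_constCoeff_eq_zero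

theorem order_pos_B (f : B) : (1 : ℕ∞) ≤ f.order ↔ cB f = 0 := by
  rw [Order.one_le_iff_pos, pos_iff_ne_zero]
  exact PowerSeries.order_ne_zero_iff_constCoeff_eq_zero

/-- the filtration by order -/
def F (n : ℕ) : Ideal R where
  carrier := {p | (n : ℕ∞) ≤ p.1.1.order ∧ (n : ℕ∞) ≤ p.1.2.order}
  add_mem' {p q} hp hq :=
    ⟨le_trans (le_min hp.1 hq.1) MvPowerSeries.min_order_le_add,
     le_trans (le_min hp.2 hq.2) (PowerSeries.min_order_le_order_add _ _)⟩
  zero_mem' := by
    constructor
    · show (n : ℕ∞) ≤ (0 : A).order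
      rw [MvPowerSeries.order_zero]; exact le_top
    · show (n : ℕ∞) ≤ (0 : B).order
      rw [PowerSeries.order_zero]; exact le_top
  smul_mem' r p hp := by
    constructor
    · show (n : ℕ∞) ≤ (r.1.1 * p.1.1).order
      rw [MvPowerSeries.order_mul]
      exact le_trans hp.1 le_add_self
    · show (n : ℕ∞) ≤ (r.1.2 * p.1.2).order
      rw [PowerSeries.order_mul]
      exact le_trans hp.2 le_add_self

theorem mem_F (n : ℕ) (p : R) :
    p ∈ F n ↔ (n : ℕ∞) ≤ p.1.1.order ∧ (n : ℕ∞) ≤ p.1.2.order := Iff.rfl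

theorem F_zero : F 0 = ⊤ := by
  rw [eq_top_iff]
  intro p _
  rw [mem_F]
  simp

theorem F_anti {m n : ℕ} (h : m ≤ n) : F n ≤ F m := by
  intro p hp
  rw [mem_F] at *
  exact ⟨le_trans (by exact_mod_cast h) hp.1, le_trans (by exact_mod_cast h) hp.2⟩

theorem mem_F_one (p : R) : p ∈ F 1 ↔ ev p = 0 := by
  rw [mem_F]
  constructor
  · rintro ⟨h1, -⟩
    exact (order_pos_A _).1 (by exact_mod_cast h1)
  · intro h
    refine ⟨?_, ?_⟩
    · exact_mod_cast (order_pos_A _).2 h
    · have := (order_pos_B p.1.2).2 (by rw [← ev_apply']; exact h)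
      exact_mod_cast this

theorem mul_mem_F {m n : ℕ} {p q : R} (hp : p ∈ F m) (hq : q ∈ F n) : p * q ∈ F (m + n) := by
  rw [mem_F] at *
  constructor
  · show ((m + n : ℕ) : ℕ∞) ≤ (p.1.1 * q.1.1).order
    rw [MvPowerSeries.order_mul, Nat.cast_add]
    exact add_le_add hp.1 hq.1
  · show ((m + n : ℕ) : ℕ∞) ≤ (p.1.2 * q.1.2).order
    rw [PowerSeries.order_mul, Nat.cast_add]
    exact add_le_add hp.2 hq.2

theorem F_mul_le (m n : ℕ) : F m * F n ≤ F (m + n) :=
  Ideal.mul_le.2 fun _ hp _ hq => mul_mem_F hp hq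

theorem pow_le_F (n : ℕ) : (F 1) ^ n ≤ F n := by
  induction n with
  | zero => rw [F_zero]; exact le_top
  | succ n ih =>
    rw [pow_succ]
    exact le_trans (Ideal.mul_mono ih le_rfl) (F_mul_le n 1)

/-- a function on the plane, vanishing at the point, extended by zero -/
def inA (f : A) (hf : cA f = 0) : R := ⟨(f, 0), by rw [mem_RS]; simp [hf]⟩
/-- a function on the line, vanishing at the point, extended by zero -/
def inB (g : B) (hg : cB g = 0) : R := ⟨(0, g), by rw [mem_RS]; simp [hg]⟩

theorem ev_inA (f : A) (hf : cA f = 0) : ev (inA f hf) = 0 := hf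
theorem ev_inB (g : B) (hg : cB g = 0) : ev (inB g hg) = 0 := by
  rw [ev_apply']; exact hg

/-- first quotient -/
def g0 (f : A) : A := fun m => MvPowerSeries.coeff (m + Finsupp.single 0 1) f
/-- second quotient -/
def g1 (f : A) : A := fun m =>
  if m 0 = 0 then MvPowerSeries.coeff (m + Finsupp.single 1 1) f else 0

theorem decompA (f : A) (hf : cA f = 0) :
    f = MvPowerSeries.X 0 * g0 f + MvPowerSeries.X 1 * g1 f := by
  ext m
  rw [map_add]
  rw [MvPowerSeries.X_mul, MvPowerSeries.X_mul, MvPowerSeries.X_def, MvPowerSeries.X_def,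
    MvPowerSeries.coeff_mul_monomial, MvPowerSeries.coeff_mul_monomial, mul_one, mul_one]
  by_cases h0 : m 0 = 0
  · rw [if_neg (by
      intro h
      have := h 0
      simp at this
      omega), zero_add]
    by_cases h1 : m 1 = 0
    · have : m = 0 := by
        ext i
        fin_cases i
        · simpa using h0
        · simpa using h1
      rw [if_neg (by
        intro h
        have := h 1
        simp at this
        omega)]
      rw [this]
      exact hf
    · rw [if_pos (by
        intro i
        fin_cases i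
        · simp
        · simp; omega)]
      show _ = if (m - Finsupp.single 1 1 : Fin 2 →₀ ℕ) 0 = 0 then
        MvPowerSeries.coeff (m - Finsupp.single 1 1 + Finsupp.single 1 1) f else 0
      rw [if_pos (by simp [h0])]
      congr 2
      ext i
      fin_cases i
      · simp
      · simp; omega
  · rw [if_pos (by
      intro i
      fin_cases i
      · simp; omega
      · simp)]
    have h2 : (if Finsupp.single 1 1 ≤ m then
        MvPowerSeries.coeff (m - Finsupp.single 1 1) (g1 f) else 0) = 0 := by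
      split_ifs with h
      · show (if (m - Finsupp.single 1 1 : Fin 2 →₀ ℕ) 0 = 0 then
          MvPowerSeries.coeff (m - Finsupp.single 1 1 + Finsupp.single 1 1) f else 0) = 0
        rw [if_neg (by simpa using h0)]
      · rfl
    rw [h2, add_zero]
    show _ = MvPowerSeries.coeff (m - Finsupp.single 0 1 + Finsupp.single 0 1) f
    congr 2
    ext i
    fin_cases i
    · simp; omega
    · simp

theorem order_g0 (f : A) (n : ℕ) (h : ((n + 1 : ℕ) : ℕ∞) ≤ f.order) : (n : ℕ∞) ≤ (g0 f).order := by
  apply MvPowerSeries.le_order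
  intro d hd
  show MvPowerSeries.coeff (d + Finsupp.single 0 1) f = 0
  apply MvPowerSeries.coeff_of_lt_order
  refine lt_of_lt_of_le ?_ h
  have : d.degree < n := by exact_mod_cast hd
  have h2 : (d + Finsupp.single (0 : Fin 2) 1).degree = d.degree + 1 := by
    simp
  rw [h2]
  exact_mod_cast Nat.add_lt_add_right this 1

theorem order_g1 (f : A) (n : ℕ) (h : ((n + 1 : ℕ) : ℕ∞) ≤ f.order) : (n : ℕ∞) ≤ (g1 f).order := by
  apply MvPowerSeries.le_order
  intro d hd
  show (if d 0 = 0 then MvPowerSeries.coeff (d + Finsupp.single 1 1) f else 0) = 0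
  split_ifs
  · apply MvPowerSeries.coeff_of_lt_order
    refine lt_of_lt_of_le ?_ h
    have : d.degree < n := by exact_mod_cast hd
    have h2 : (d + Finsupp.single (1 : Fin 2) 1).degree = d.degree + 1 := by
      simp
    rw [h2]
    exact_mod_cast Nat.add_lt_add_right this 1
  · rfl

theorem cA_of_order (f : A) (n : ℕ) (h : ((n + 1 : ℕ) : ℕ∞) ≤ f.order) : cA f = 0 :=
  (order_pos_A f).1 (le_trans (by exact_mod_cast Nat.le_add_left 1 n) h)

theorem cB_of_order (f : B) (n : ℕ) (h : ((n + 1 : ℕ) : ℕ∞) ≤ f.order) : cB f = 0 :=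
  (order_pos_B f).1 (le_trans (by exact_mod_cast Nat.le_add_left 1 n) h)

theorem cA_X (i : Fin 2) : cA (MvPowerSeries.X i) = 0 := by
  simp [cA]

theorem cB_X : cB PowerSeries.X = 0 := by
  simp [cB]

theorem inA_mem (n : ℕ) (f : A) (h : ((n + 1 : ℕ) : ℕ∞) ≤ f.order) :
    inA f (cA_of_order f n h) ∈ (F 1) ^ (n + 1) := by
  induction n generalizing f with
  | zero =>
    rw [zero_add, pow_one, mem_F_one]
    exact ev_inA _ _
  | succ n ih =>
    have h0 := order_g0 f (n + 1) h
    have h1 := order_g1 f (n + 1) h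
    have e : inA f (cA_of_order f (n + 1) h) =
        inA (MvPowerSeries.X 0) (cA_X 0) * inA (g0 f) (cA_of_order _ n h0) +
        inA (MvPowerSeries.X 1) (cA_X 1) * inA (g1 f) (cA_of_order _ n h1) := by
      apply Subtype.ext
      apply Prod.ext
      · exact decompA f (cA_of_order f (n + 1) h)
      · show (0 : B) = 0 * 0 + 0 * 0
        simp
    rw [e, pow_succ']
    apply Ideal.add_mem
    · exact Ideal.mul_mem_mul ((mem_F_one _).2 (ev_inA _ _)) (ih _ h0)
    · exact Ideal.mul_mem_mul ((mem_F_one _).2 (ev_inA _ _)) (ih _ h1)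

theorem inB_mem (n : ℕ) (g : B) (h : ((n + 1 : ℕ) : ℕ∞) ≤ g.order) :
    inB g (cB_of_order g n h) ∈ (F 1) ^ (n + 1) := by
  induction n generalizing g with
  | zero =>
    rw [zero_add, pow_one, mem_F_one]
    exact ev_inB _ _
  | succ n ih =>
    obtain ⟨g', rfl⟩ : PowerSeries.X ∣ g := by
      rw [PowerSeries.X_dvd_iff]
      exact cB_of_order g (n + 1) h
    have h' : ((n + 1 : ℕ) : ℕ∞) ≤ g'.order := by
      rw [PowerSeries.order_mul, PowerSeries.order_X] at h
      have : ((n + 1 + 1 : ℕ) : ℕ∞) = 1 + ((n + 1 : ℕ) : ℕ∞) := by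
        push_cast; ring
      rw [this] at h
      exact (ENat.add_le_add_iff_left (by simp)).1 h
    have e : inB (PowerSeries.X * g') (cB_of_order _ (n + 1) h) =
        inB PowerSeries.X cB_X * inB g' (cB_of_order _ n h') := by
      apply Subtype.ext
      apply Prod.ext
      · show (0 : A) = 0 * 0
        simp
      · rfl
    rw [e, pow_succ']
    exact Ideal.mul_mem_mul ((mem_F_one _).2 (ev_inB _ _)) (ih _ h')

theorem F_eq_pow (n : ℕ) : F n = (F 1) ^ n := by
  apply le_antisymm _ (pow_le_F n)
  cases n with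
  | zero => rw [pow_zero, Ideal.one_eq_top]; exact le_top
  | succ n =>
    intro p hp
    rw [mem_F] at hp
    have e : p = inA p.1.1 (cA_of_order _ n hp.1) + inB p.1.2 (cB_of_order _ n hp.2) := by
      apply Subtype.ext
      apply Prod.ext
      · show p.1.1 = p.1.1 + 0
        simp
      · show p.1.2 = 0 + p.1.2
        simp
    rw [e]
    exact Ideal.add_mem _ (inA_mem n _ hp.1) (inB_mem n _ hp.2)

theorem enat_aux (d k : ℕ) (v : ℕ∞) (h : ((d * k + 1 : ℕ) : ℕ∞) ≤ k * v) :
    ((d + 1 : ℕ) : ℕ∞) ≤ v := by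
  by_contra hcon
  push Not at hcon
  have hv : v ≤ d := by
    have : v < (d : ℕ∞) + 1 := by exact_mod_cast hcon
    exact Order.le_of_lt_add_one this
  have h3 : (k : ℕ∞) * v ≤ ((d * k : ℕ) : ℕ∞) := by
    calc (k : ℕ∞) * v ≤ k * d := by gcongr
      _ = ((d * k : ℕ) : ℕ∞) := by push_cast; ring
  have h4 := le_trans h h3
  have h5 : d * k + 1 ≤ d * k := by exact_mod_cast h4
  omega

theorem order_powA (f : A) (k : ℕ) : (f ^ k).order = k * f.order := by
  induction k with
  | zero =>
    simp only [pow_zero, Nat.cast_zero, zero_mul]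
    have := MvPowerSeries.order_monomial_of_ne_zero (σ := Fin 2) (R := ℚ) (d := 0) (a := 1)
      one_ne_zero
    simpa using this
  | succ k ih =>
    rw [pow_succ, MvPowerSeries.order_mul, ih]
    push_cast
    ring

theorem order_powB (f : B) (k : ℕ) : (f ^ k).order = k * f.order := by
  induction k with
  | zero => simp
  | succ k ih =>
    rw [pow_succ, PowerSeries.order_mul, ih]
    push_cast
    ring

theorem mem_of_pow {d k : ℕ} {p : R} (h : p ^ k ∈ F (d * k + 1)) : p ∈ F (d + 1) := by
  rw [mem_F] at *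
  constructor
  · apply enat_aux d k
    rw [← order_powA]
    exact h.1
  · apply enat_aux d k
    rw [← order_powB]
    exact h.2

end Pool.K4H49.PL
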