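import Pool.Agent.K4H49.PL.Local

set_option autoImplicit false

noncomputable section

namespace Pool.K4H49.PL

/-- `R` acts on the residue field through evaluation. -/
local instance evAlg : Algebra R ℚ := ev.toAlgebra

theorem algMap_eq (r : R) : algebraMap R ℚ r = ev r := rfl
theorem smul_eq (r : R) (q : ℚ) : r • q = ev r * q := rfl

/-- constants -/
def kap (q : ℚ) : R := ⟨(MvPowerSeries.C q, PowerSeries.C q), by
  rw [mem_RS]; simp [cA, cB]⟩

theorem ev_kap (q : ℚ) : ev (kap q) = q := by
  rw [ev_apply]; simp [kap, cA]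

theorem length_Q : Module.length R ℚ = 1 := by
  rw [Module.length_eq_of_surjective (R := ℚ) (S := R) (M := ℚ) (fun q => ⟨kap q, ev_kap q⟩)]
  exact Module.length_eq_one ℚ ℚ

/-- homogeneous pieces -/
abbrev V (n : ℕ) : Type := (Fin (n + 1) → ℚ) × ℚ

theorem length_V (n : ℕ) : Module.length R (V n) = ((n + 2 : ℕ) : ℕ∞) := by
  rw [Module.length_prod, Module.length_pi, length_Q]
  simp
  ring

/-- homogeneous polynomial with given coefficients -/
def T (n : ℕ) (c : Fin (n + 1) → ℚ) : A := fun m =>
  if h : m 0 + m 1 = n then c ⟨m 0, by omega⟩ else 0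

theorem coeff_T (n : ℕ) (c : Fin (n + 1) → ℚ) (m : Fin 2 →₀ ℕ) :
    MvPowerSeries.coeff m (T n c) = if h : m 0 + m 1 = n then c ⟨m 0, by omega⟩ else 0 := rfl

theorem degree_two (d : Fin 2 →₀ ℕ) : d.degree = d 0 + d 1 := by
  rw [Finsupp.degree_eq_sum]
  simp [Fin.sum_univ_two]

theorem order_T (n : ℕ) (c : Fin (n + 1) → ℚ) : (n : ℕ∞) ≤ (T n c).order := by
  apply MvPowerSeries.le_order
  intro d hd
  rw [coeff_T, dif_neg]
  rw [degree_two] at hd
  have : d 0 + d 1 < n := by exact_mod_cast hd
  omega

theorem order_mono (n : ℕ) (b : ℚ) : (n : ℕ∞) ≤ (PowerSeries.monomial n b).order := by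
  apply PowerSeries.le_order
  intro i hi
  rw [PowerSeries.coeff_monomial, if_neg]
  have : i < n := by exact_mod_cast hi
  omega

theorem T_add (n : ℕ) (c d : Fin (n + 1) → ℚ) : T n (c + d) = T n c + T n d := by
  ext m
  rw [map_add, coeff_T, coeff_T, coeff_T]
  split_ifs <;> simp

theorem T_smul (n : ℕ) (q : ℚ) (c : Fin (n + 1) → ℚ) :
    T n (fun i => q * c i) = MvPowerSeries.C q * T n c := by
  ext m
  rw [MvPowerSeries.coeff_C_mul, coeff_T, coeff_T]
  split_ifs <;> simp

/-- the elements of `R` with given homogeneous coefficients -/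
def E (n : ℕ) (v : V (n + 1)) : R :=
  ⟨(T (n + 1) v.1, PowerSeries.monomial (n + 1) v.2), by
    rw [mem_RS, cA_of_order _ n (order_T (n + 1) v.1), cB_of_order _ n (order_mono (n + 1) v.2)]⟩

theorem E_mem (n : ℕ) (v : V (n + 1)) : E n v ∈ F (n + 1) :=
  (mem_F _ _).2 ⟨order_T _ _, order_mono _ _⟩

theorem E_add (n : ℕ) (v w : V (n + 1)) : E n (v + w) = E n v + E n w := by
  apply Subtype.ext
  apply Prod.ext
  · exact T_add _ _ _
  · show PowerSeries.monomial (n + 1) (v.2 + w.2) = _
    rw [map_add]
    rfl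

theorem E_smul (n : ℕ) (r : R) (v : V (n + 1)) : E n (r • v) = kap (ev r) * E n v := by
  apply Subtype.ext
  apply Prod.ext
  · exact T_smul _ _ _
  · show PowerSeries.monomial (n + 1) (ev r * v.2) = PowerSeries.C (ev r) *
      PowerSeries.monomial (n + 1) v.2
    ext m
    rw [PowerSeries.coeff_C_mul, PowerSeries.coeff_monomial, PowerSeries.coeff_monomial]
    split_ifs <;> simp

/-- inclusion of the homogeneous piece -/
def Emap (n : ℕ) : V (n + 1) →ₗ[R] R ⧸ F (n + 2) where
  toFun v := Ideal.Quotient.mk _ (E n v)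
  map_add' v w := by rw [E_add, map_add]
  map_smul' r v := by
    rw [E_smul, RingHom.id_apply]
    show _ = Ideal.Quotient.mk _ (r * E n v)
    rw [Ideal.Quotient.eq, ← sub_mul]
    have h : kap (ev r) - r ∈ F 1 := by
      rw [mem_F_one, map_sub, ev_kap, sub_self]
    have := mul_mem_F h (E_mem n v)
    exact F_anti (by omega) this

theorem Emap_inj (n : ℕ) : Function.Injective (Emap n) := by
  rw [← LinearMap.ker_eq_bot, LinearMap.ker_eq_bot']
  intro v hv
  have h : E n v ∈ F (n + 2) := Ideal.Quotient.eq_zero_iff_mem.1 hv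
  rw [mem_F] at h
  apply Prod.ext
  · funext i
    have h1 := MvPowerSeries.coeff_of_lt_order (f := (E n v).1.1)
      (d := Finsupp.single 0 (i : ℕ) + Finsupp.single 1 (n + 1 - i)) (by
        refine lt_of_lt_of_le ?_ h.1
        rw [degree_two]
        have := i.2
        simp
        exact_mod_cast (by omega : (i : ℕ) + (n + 1 - i) < n + 2))
    change MvPowerSeries.coeff _ (T (n + 1) v.1) = 0 at h1
    rw [coeff_T] at h1
    have := i.2
    rw [dif_pos (by simp; omega)] at h1
    simpa using h1
  · have h1 := PowerSeries.coeff_of_lt_order (φ := (E n v).1.2) (n + 1) (by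
      refine lt_of_lt_of_le ?_ h.2
      exact_mod_cast (by omega : n + 1 < n + 2))
    change PowerSeries.coeff (n + 1) (PowerSeries.monomial (n + 1) v.2) = 0 at h1
    rw [PowerSeries.coeff_monomial_same] at h1
    exact h1

/-- reduction map -/
def red (n : ℕ) : R ⧸ F (n + 2) →ₗ[R] R ⧸ F (n + 1) :=
  (Ideal.Quotient.factorₐ R (F_anti (Nat.le_succ (n + 1)))).toLinearMap

theorem red_mk (n : ℕ) (r : R) : red n (Ideal.Quotient.mk _ r) = Ideal.Quotient.mk _ r := rfl

theorem red_surj (n : ℕ) : Function.Surjective (red n) := by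
  intro y
  obtain ⟨r, rfl⟩ := Ideal.Quotient.mk_surjective y
  exact ⟨Ideal.Quotient.mk _ r, red_mk n r⟩

theorem red_exact (n : ℕ) : Function.Exact (Emap n) (red n) := by
  intro y
  obtain ⟨p, rfl⟩ := Ideal.Quotient.mk_surjective y
  rw [red_mk, Ideal.Quotient.eq_zero_iff_mem]
  constructor
  · intro hp
    rw [mem_F] at hp
    refine ⟨(fun i => MvPowerSeries.coeff
      (Finsupp.single 0 (i : ℕ) + Finsupp.single 1 (n + 1 - i)) p.1.1,
      PowerSeries.coeff (n + 1) p.1.2), ?_⟩
    show Ideal.Quotient.mk _ (E n _) = _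
    rw [Ideal.Quotient.eq, mem_F]
    constructor
    · apply MvPowerSeries.le_order
      intro d hd
      rw [degree_two] at hd
      have hd' : d 0 + d 1 < n + 2 := by exact_mod_cast hd
      show MvPowerSeries.coeff d (T (n + 1) _ - p.1.1) = 0
      rw [map_sub, coeff_T]
      by_cases h : d 0 + d 1 = n + 1
      · rw [dif_pos h]
        have : Finsupp.single 0 (d 0) + Finsupp.single 1 (n + 1 - d 0) = d := by
          ext i
          fin_cases i
          · simp
          · simp; omega
        simp only [this, sub_self]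
      · rw [dif_neg h, zero_sub, neg_eq_zero]
        apply MvPowerSeries.coeff_of_lt_order
        refine lt_of_lt_of_le ?_ hp.1
        rw [degree_two]
        exact_mod_cast (by omega : d 0 + d 1 < n + 1)
    · apply PowerSeries.le_order
      intro i hi
      have hi' : i < n + 2 := by exact_mod_cast hi
      show PowerSeries.coeff i (PowerSeries.monomial (n + 1) (PowerSeries.coeff (n + 1) p.1.2) -
        p.1.2) = 0
      rw [map_sub, PowerSeries.coeff_monomial]
      by_cases h : i = n + 1
      · rw [if_pos h, h, sub_self]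
      · rw [if_neg h, zero_sub, neg_eq_zero]
        apply PowerSeries.coeff_of_lt_order
        refine lt_of_lt_of_le ?_ hp.2
        exact_mod_cast (by omega : i < n + 1)
  · rintro ⟨v, hv⟩
    have hv' : Ideal.Quotient.mk (F (n + 2)) (E n v) = Ideal.Quotient.mk _ p := hv
    rw [Ideal.Quotient.eq] at hv'
    have h1 := F_anti (Nat.le_succ (n + 1)) hv'
    have h2 := Ideal.sub_mem _ (E_mem n v) h1
    simpa using h2

theorem length_zero : Module.length R (R ⧸ F 1) = 1 := by
  rw [← maximalIdeal_eq]
  haveI : IsSimpleModule R (R ⧸ IsLocalRing.maximalIdeal R) := by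
    rw [isSimpleModule_iff_isCoatom]
    exact (IsLocalRing.maximalIdeal.isMaximal R).out
  exact Module.length_eq_one R _

theorem length_succ (n : ℕ) : Module.length R (R ⧸ F (n + 2)) =
    ((n + 3 : ℕ) : ℕ∞) + Module.length R (R ⧸ F (n + 1)) := by
  rw [Module.length_eq_add_of_exact (Emap n) (red n) (Emap_inj n) (red_surj n) (red_exact n),
    length_V]

theorem length_F (n : ℕ) : Module.length R (R ⧸ F (n + 1)) =
    (((n + 2).choose 2 + n : ℕ) : ℕ∞) := by
  induction n with
  | zero => rw [zero_add, length_zero]; simp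
  | succ n ih =>
    rw [length_succ, ih]
    rw [show n + 1 + 2 = (n + 2) + 1 by ring, Nat.choose_succ_succ (n + 2) 1, Nat.choose_one_right]
    norm_cast
    ring

end Pool.K4H49.PL
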