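import Pool.Agent.K4H49.PL.Basic

set_option autoImplicit false

noncomputable section

namespace Pool.K4H49.PL

theorem isUnit_of_ev {p : R} (h : ev p ≠ 0) : IsUnit p := by
  have hA : IsUnit p.1.1 := by
    rw [MvPowerSeries.isUnit_iff_constantCoeff]
    exact (isUnit_iff_ne_zero.2 h)
  have hB : IsUnit p.1.2 := by
    rw [PowerSeries.isUnit_iff_constantCoeff]
    rw [ev_apply'] at h
    exact (isUnit_iff_ne_zero.2 h)
  obtain ⟨f, hf⟩ := hA.exists_right_inv
  obtain ⟨g, hg⟩ := hB.exists_right_inv
  have h1 : ev p * cA f = 1 := by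
    have := congrArg cA hf
    rw [map_mul, map_one] at this
    exact this
  have h2 : ev p * cB g = 1 := by
    have := congrArg cB hg
    rw [map_mul, map_one] at this
    rw [ev_apply']
    exact this
  have h3 : cA f = cB g := mul_left_cancel₀ h (h1.trans h2.symm)
  refine IsUnit.of_mul_eq_one ⟨(f, g), h3⟩ ?_
  apply Subtype.ext
  apply Prod.ext
  · exact hf
  · exact hg

theorem ev_eq_zero_of_nonunit {p : R} (h : p ∈ nonunits R) : ev p = 0 := by
  by_contra hc
  exact h (isUnit_of_ev hc)

instance : Nontrivial R := ⟨0, 1, fun h => by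
  have := congrArg ev h
  rw [map_zero, map_one] at this
  exact zero_ne_one this⟩

instance : IsLocalRing R := IsLocalRing.of_nonunits_add (by
  intro a b ha hb hc
  have h1 := hc.map ev
  rw [map_add, ev_eq_zero_of_nonunit ha, ev_eq_zero_of_nonunit hb, add_zero] at h1
  exact not_isUnit_zero h1)

theorem maximalIdeal_eq : IsLocalRing.maximalIdeal R = F 1 := by
  ext p
  rw [IsLocalRing.mem_maximalIdeal, mem_F_one]
  constructor
  · exact ev_eq_zero_of_nonunit
  · intro h hu
    have h1 := hu.map ev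
    rw [h] at h1
    exact not_isUnit_zero h1

/-- A prime containing the finitely generated kernel of a surjection onto a noetherian ring
is finitely generated. -/
theorem fg_of_ker_le {S T : Type*} [CommRing S] [CommRing T] [IsNoetherianRing T] (φ : S →+* T)
    (hφ : Function.Surjective φ) (P : Ideal S) (hk : RingHom.ker φ ≤ P) (hfg : (RingHom.ker φ).FG) :
    P.FG := by
  obtain ⟨s, hs⟩ := (IsNoetherian.noetherian (P.map φ) : (P.map φ).FG)
  classical
  have hφ' := hφ
  choose g hg using hφ'
  have h1 : P = Ideal.span (s.image g : Finset S) ⊔ RingHom.ker φ := by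
    have h2 : P = (P.map φ).comap φ := by
      rw [Ideal.comap_map_of_surjective φ hφ, ← RingHom.ker_eq_comap_bot]
      exact (sup_eq_left.2 hk).symm
    have h3 : (Ideal.span (s.image g : Finset S) : Ideal S).map φ = P.map φ := by
      rw [Ideal.map_span, ← hs]
      congr 1
      rw [Finset.coe_image, ← Set.image_comp]
      ext t
      simp [hg]
    conv_lhs => rw [h2, ← h3]
    rw [Ideal.comap_map_of_surjective φ hφ, ← RingHom.ker_eq_comap_bot]
  rw [h1]
  exact Submodule.FG.sup ⟨_, rfl⟩ hfg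

/-- projection to the plane -/
def toA : R →+* A := (RingHom.fst A B).comp RS.subtype
/-- projection to the line -/
def toB : R →+* B := (RingHom.snd A B).comp RS.subtype

theorem toA_surj : Function.Surjective toA := fun f =>
  ⟨⟨(f, PowerSeries.C (cA f)), by rw [mem_RS]; simp [cB]⟩, rfl⟩
theorem toB_surj : Function.Surjective toB := fun g =>
  ⟨⟨(MvPowerSeries.C (cB g), g), by rw [mem_RS]; simp [cA]⟩, rfl⟩

/-- the coordinate functions -/
def x0 : R := inA (MvPowerSeries.X 0) (cA_X 0)
/-- the coordinate functions -/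
def x1 : R := inA (MvPowerSeries.X 1) (cA_X 1)
/-- the coordinate functions -/
def zz : R := inB PowerSeries.X cB_X

theorem ker_toA : RingHom.ker toA = Ideal.span {zz} := by
  apply le_antisymm
  · intro p hp
    rw [RingHom.mem_ker] at hp
    have hp1 : p.1.1 = 0 := hp
    have hev : ev p = 0 := by
      rw [ev_apply, hp1, map_zero]
    have hX : PowerSeries.X ∣ p.1.2 := by
      rw [PowerSeries.X_dvd_iff]
      rw [ev_apply'] at hev
      exact hev
    obtain ⟨g, hg⟩ := hX
    obtain ⟨q, hq⟩ := toB_surj g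
    rw [Ideal.mem_span_singleton]
    refine ⟨q, ?_⟩
    apply Subtype.ext
    apply Prod.ext
    · show p.1.1 = 0 * q.1.1
      rw [hp1, zero_mul]
    · show p.1.2 = PowerSeries.X * q.1.2
      rw [hg, ← hq]
      rfl
  · rw [Ideal.span_le, Set.singleton_subset_iff]
    rfl

theorem ker_toB : RingHom.ker toB = Ideal.span {x0, x1} := by
  apply le_antisymm
  · intro p hp
    rw [RingHom.mem_ker] at hp
    have hp1 : p.1.2 = 0 := hp
    have hev : cA p.1.1 = 0 := by
      rw [← ev_apply, ev_apply', hp1, map_zero]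
    obtain ⟨q0, hq0⟩ := toA_surj (g0 p.1.1)
    obtain ⟨q1, hq1⟩ := toA_surj (g1 p.1.1)
    rw [Ideal.mem_span_pair]
    refine ⟨q0, q1, ?_⟩
    apply Subtype.ext
    apply Prod.ext
    · show q0.1.1 * MvPowerSeries.X 0 + q1.1.1 * MvPowerSeries.X 1 = p.1.1
      rw [decompA p.1.1 hev, ← hq0, ← hq1]
      show q0.1.1 * MvPowerSeries.X 0 + q1.1.1 * MvPowerSeries.X 1 =
        MvPowerSeries.X 0 * q0.1.1 + MvPowerSeries.X 1 * q1.1.1
      ring
    · show q0.1.2 * 0 + q1.1.2 * 0 = p.1.2
      rw [hp1]; ring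
  · rw [Ideal.span_le]
    rintro p (rfl | rfl) <;> rfl

theorem ker_mul_ker : RingHom.ker toA * RingHom.ker toB = ⊥ := by
  rw [eq_bot_iff, Ideal.mul_le]
  intro p hp q hq
  rw [RingHom.mem_ker] at hp hq
  have hp1 : p.1.1 = 0 := hp
  have hq1 : q.1.2 = 0 := hq
  rw [Submodule.mem_bot]
  apply Subtype.ext
  apply Prod.ext
  · show p.1.1 * q.1.1 = 0
    rw [hp1, zero_mul]
  · show p.1.2 * q.1.2 = 0
    rw [hq1, mul_zero]

instance : IsNoetherianRing R := IsNoetherianRing.of_prime (by
  intro P hP
  have h : RingHom.ker toA * RingHom.ker toB ≤ P := by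
    rw [ker_mul_ker]; exact bot_le
  rcases (Ideal.IsPrime.mul_le hP).1 h with h1 | h1
  · exact fg_of_ker_le toA toA_surj P h1 (by rw [ker_toA]; exact ⟨{zz}, by simp⟩)
  · exact fg_of_ker_le toB toB_surj P h1 (by
      rw [ker_toB]
      classical
      exact ⟨{x0, x1}, by simp⟩))

/-- The powers of the maximal ideal are integrally closed. -/
theorem integral_iff (n : ℕ) (x : R) :
    x ∈ F n ↔ ∃ k : ℕ, 0 < k ∧ ∃ a : ℕ → R, (∀ j, a j ∈ ((F 1) ^ n) ^ j) ∧
      x ^ k + ∑ j ∈ Finset.range k, a (k - j) * x ^ j = 0 := by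
  constructor
  · intro hx
    refine ⟨1, one_pos, fun j => if j = 1 then -x else 0, ?_, ?_⟩
    · intro j
      by_cases hj : j = 1
      · subst hj
        simp only [if_true, pow_one]
        rw [← F_eq_pow]
        exact neg_mem hx
      · simp [hj]
    · simp
  · rintro ⟨k, hk, a, ha, heq⟩
    have key : ∀ d, d ≤ n → x ∈ F d := by
      intro d
      induction d with
      | zero => intro _; rw [F_zero]; trivial
      | succ d ih =>
        intro hd
        have hxd := ih (by omega)
        apply mem_of_pow (k := k)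
        have h1 : x ^ k = -∑ j ∈ Finset.range k, a (k - j) * x ^ j := by
          linear_combination heq
        rw [h1]
        apply neg_mem
        apply Ideal.sum_mem
        intro j hj
        rw [Finset.mem_range] at hj
        have h2 : a (k - j) ∈ F (n * (k - j)) := by
          have := ha (k - j)
          rw [← pow_mul, ← F_eq_pow] at this
          exact this
        have h3 : x ^ j ∈ F (d * j) := by
          rw [F_eq_pow, pow_mul, ← F_eq_pow]
          exact Ideal.pow_mem_pow hxd j
        refine F_anti ?_ (mul_mem_F h2 h3)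
        obtain ⟨c, rfl⟩ := Nat.exists_eq_add_of_lt hj
        have : j + c + 1 - j = c + 1 := by omega
        rw [this]
        nlinarith [Nat.zero_le c, Nat.zero_le d, mul_le_mul_right hd (c + 1)]
    exact key n le_rfl

theorem adic_reduced : IsReduced (AdicCompletion (IsLocalRing.maximalIdeal R) R) := by
  rw [maximalIdeal_eq]
  rw [isReduced_iff_pow_one_lt 2 one_lt_two]
  intro x hx
  apply AdicCompletion.ext_evalₐ
  intro n
  rw [map_zero]
  obtain ⟨s, rfl⟩ := AdicCompletion.mk_surjective (F 1) R x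
  have h0 := congrArg (AdicCompletion.evalₐ (F 1) (2 * n + 1)) hx
  rw [map_pow, map_zero, AdicCompletion.evalₐ_mk, ← map_pow,
    Ideal.Quotient.eq_zero_iff_mem] at h0
  have h1 : (s.val (2 * n + 1)) ^ 2 ∈ F (n * 2 + 1) := by
    rw [F_eq_pow, mul_comm n 2]; exact h0
  have h2 : s.val (2 * n + 1) ∈ F n := F_anti (Nat.le_succ n) (mem_of_pow h1)
  rw [AdicCompletion.evalₐ_mk, ← AdicCompletion.Ideal.mk_eq_mk (F 1) (by omega : n ≤ 2 * n + 1) s,
    Ideal.Quotient.eq_zero_iff_mem, ← F_eq_pow]
  exact h2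

/-- middle prime: functions vanishing on the axis `y = 0` of the plane -/
def P1 : Ideal R where
  carrier := {p | (1 : ℕ∞) ≤ p.1.1.weightedOrder ![0, 1]}
  add_mem' {p q} hp hq :=
    le_trans (le_min hp hq) (MvPowerSeries.min_weightedOrder_le_add _)
  zero_mem' := by
    show (1 : ℕ∞) ≤ (0 : A).weightedOrder ![0, 1]
    rw [MvPowerSeries.weightedOrder_zero]; exact le_top
  smul_mem' r p hp := by
    show (1 : ℕ∞) ≤ (r.1.1 * p.1.1).weightedOrder ![0, 1]
    rw [MvPowerSeries.weightedOrder_mul]
    exact le_trans hp le_add_self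

theorem mem_P1 (p : R) : p ∈ P1 ↔ (1 : ℕ∞) ≤ p.1.1.weightedOrder ![0, 1] := Iff.rfl

instance : P1.IsPrime where
  ne_top' := by
    intro h
    have : (1 : R) ∈ P1 := by rw [h]; trivial
    rw [mem_P1] at this
    have h2 : (1 : A).weightedOrder ![0, 1] = 0 := MvPowerSeries.weightedOrder_one _
    rw [show (1 : R).1.1 = (1 : A) from rfl, h2] at this
    simp at this
  mem_or_mem' {p q} h := by
    rw [mem_P1] at *
    rw [mem_P1]
    rw [show (p * q : R).1.1 = p.1.1 * q.1.1 from rfl, MvPowerSeries.weightedOrder_mul] at h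
    by_contra hc
    push Not at hc
    rw [Order.lt_one_iff, Order.lt_one_iff] at hc
    rw [hc.1, hc.2] at h
    simp at h

theorem weighted_le (d : Fin 2 →₀ ℕ) : Finsupp.weight ![0, 1] d = d 1 := by
  rw [Finsupp.weight_apply, Finsupp.sum_fintype _ _ (by simp)]
  simp [Fin.sum_univ_two]

theorem x1_mem_P1 : x1 ∈ P1 := by
  rw [mem_P1]
  apply MvPowerSeries.le_weightedOrder
  intro d hd
  rw [weighted_le] at hd
  have hd0 : d 1 = 0 := by
    have : d 1 < 1 := by exact_mod_cast hd
    omega
  show MvPowerSeries.coeff d (MvPowerSeries.X 1 : A) = 0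
  rw [MvPowerSeries.coeff_X, if_neg]
  rintro rfl
  simp at hd0

theorem x0_not_mem_P1 : x0 ∉ P1 := by
  rw [mem_P1]
  intro h
  have h1 := MvPowerSeries.weightedOrder_le (f := x0.1.1) (d := Finsupp.single 0 1) ![0, 1] (by
    show MvPowerSeries.coeff (Finsupp.single 0 1) (MvPowerSeries.X 0 : A) ≠ 0
    rw [MvPowerSeries.coeff_X]
    simp)
  rw [weighted_le] at h1
  have := le_trans h h1
  simp at this

theorem P1_le : P1 ≤ F 1 := by
  intro p hp
  rw [mem_F_one]
  by_contra hc
  have h1 := MvPowerSeries.weightedOrder_le (f := p.1.1) (d := 0) ![0, 1] (by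
    show MvPowerSeries.coeff 0 p.1.1 ≠ 0
    exact hc)
  rw [weighted_le] at h1
  rw [mem_P1] at hp
  have := le_trans hp h1
  simp at this

theorem kertoA_le : RingHom.ker toA ≤ P1 := by
  intro p hp
  rw [RingHom.mem_ker] at hp
  have hp1 : p.1.1 = 0 := hp
  rw [mem_P1, hp1, MvPowerSeries.weightedOrder_zero]
  exact le_top

/-- The prime chain of length two. -/
theorem two_le_dim : (2 : WithBot ℕ∞) ≤ ringKrullDim R := by
  haveI : IsDomain A := NoZeroDivisors.to_isDomain A
  have hp0 : (RingHom.ker toA).IsPrime := RingHom.ker_isPrime toA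
  have h01 : (⟨RingHom.ker toA, hp0⟩ : PrimeSpectrum R) < ⟨P1, inferInstance⟩ := by
    rw [← PrimeSpectrum.asIdeal_lt_asIdeal]
    refine lt_of_le_of_ne kertoA_le ?_
    intro h
    have h1 : x1 ∈ RingHom.ker toA := by
      show x1 ∈ (RingHom.ker toA : Ideal R)
      rw [show (RingHom.ker toA : Ideal R) = P1 from h]
      exact x1_mem_P1
    have h2 : (MvPowerSeries.X 1 : A) = 0 := h1
    have h3 := congrArg (MvPowerSeries.coeff (Finsupp.single 1 1)) h2
    rw [MvPowerSeries.coeff_X] at h3
    simp at h3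
  have h12 : (⟨P1, inferInstance⟩ : PrimeSpectrum R) <
      ⟨IsLocalRing.maximalIdeal R, inferInstance⟩ := by
    rw [← PrimeSpectrum.asIdeal_lt_asIdeal]
    refine lt_of_le_of_ne (IsLocalRing.le_maximalIdeal_of_isPrime _) ?_
    intro h
    apply x0_not_mem_P1
    have h' : P1 = IsLocalRing.maximalIdeal R := h
    rw [h', maximalIdeal_eq, mem_F_one]
    exact ev_inA _ _
  have := Order.le_krullDim_iff (α := PrimeSpectrum R) (n := 2)
  exact this.2 ⟨⟨2, ![⟨RingHom.ker toA, hp0⟩, ⟨P1, inferInstance⟩,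
    ⟨IsLocalRing.maximalIdeal R, inferInstance⟩], by
      intro i
      fin_cases i
      · exact h01
      · exact h12⟩, rfl⟩

theorem F_one_gen (P : Ideal R) [P.IsPrime] (h0 : x0 + zz ∈ P) (h1 : x1 ∈ P) : F 1 ≤ P := by
  have hxz : x0 * zz = 0 := by
    apply Subtype.ext
    apply Prod.ext
    · show MvPowerSeries.X 0 * (0 : A) = 0
      simp
    · show (0 : B) * PowerSeries.X = 0
      simp
  have hx0 : x0 ∈ P := by
    have : x0 * x0 ∈ P := by
      have h2 : x0 * x0 = x0 * (x0 + zz) := by rw [mul_add, hxz, add_zero]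
      rw [h2]
      exact Ideal.mul_mem_left _ _ h0
    rcases Ideal.IsPrime.mem_or_mem ‹_› this with h | h <;> exact h
  have hzz : zz ∈ P := by
    have h2 : zz = (x0 + zz) - x0 := by ring
    rw [h2]
    exact Ideal.sub_mem _ h0 hx0
  intro p hp
  have hev : ev p = 0 := (mem_F_one p).1 hp
  have e : p = inA p.1.1 hev + inB p.1.2 (by rw [← ev_apply']; exact hev) := by
    apply Subtype.ext
    apply Prod.ext
    · show p.1.1 = p.1.1 + 0
      simp
    · show p.1.2 = 0 + p.1.2
      simp
  rw [e]
  apply Ideal.add_mem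
  · have h3 : inA p.1.1 hev ∈ RingHom.ker toB := rfl
    rw [ker_toB] at h3
    refine (Ideal.span_le.2 ?_) h3
    rintro q (rfl | rfl)
    · exact hx0
    · exact h1
  · have h3 : inB p.1.2 (by rw [← ev_apply']; exact hev) ∈ RingHom.ker toA := rfl
    rw [ker_toA] at h3
    refine (Ideal.span_le.2 ?_) h3
    rintro q rfl
    exact hzz

theorem dim_le_two : ringKrullDim R ≤ 2 := by
  rw [← IsLocalRing.maximalIdeal_height_eq_ringKrullDim]
  classical
  have h : IsLocalRing.maximalIdeal R ∈
      (Ideal.span (({x0 + zz, x1} : Finset R) : Set R)).minimalPrimes := by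
    refine ⟨⟨inferInstance, ?_⟩, ?_⟩
    · rw [Ideal.span_le, maximalIdeal_eq]
      intro p hp
      simp only [Finset.coe_insert, Finset.coe_singleton, Set.mem_insert_iff,
        Set.mem_singleton_iff] at hp
      rcases hp with rfl | rfl
      · exact Ideal.add_mem _ ((mem_F_one _).2 (ev_inA _ _)) ((mem_F_one _).2 (ev_inB _ _))
      · exact (mem_F_one _).2 (ev_inA _ _)
    · rintro Q ⟨hQ, hle⟩ -
      rw [maximalIdeal_eq]
      haveI := hQ
      apply F_one_gen Q
      · exact hle (Ideal.subset_span (by simp))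
      · exact hle (Ideal.subset_span (by simp))
  have h2 := Ideal.height_le_card_of_mem_minimalPrimes_span_finset h
  have h3 : (({x0 + zz, x1} : Finset R).card : ℕ∞) ≤ 2 := by
    exact_mod_cast Finset.card_le_two
  have h4 : (IsLocalRing.maximalIdeal R).height ≤ 2 := le_trans h2 h3
  exact (WithBot.coe_le_coe.2 h4)

theorem dim_eq : ringKrullDim R = ((2 : ℕ) : WithBot ℕ∞) :=
  le_antisymm (by exact_mod_cast dim_le_two) (by exact_mod_cast two_le_dim)

end Pool.K4H49.PL
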